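import Pool.Agent.Q283.FT.Stm4

/-!
# Project FT (helper283), job DCE: the classes of the differences
-/

set_option autoImplicit false

namespace Pool.Agent.Q53.FT

open NumberField IsDedekindDomain
open Pool.Agent.Q283.LQ (Sm)
open Pool.Agent.Q7.LK
open Pool.Agent.Q283.FT

theorem df_ne {F : Type} [Field F] {e : Fin 3 → F} (he : Rt e) (l : Fin 3) : df e l ≠ 0 := by
  have h12 : e 1 ≠ e 2 := fun h => absurd (he.inj h) (by decide)
  have h02 : e 0 ≠ e 2 := fun h => absurd (he.inj h) (by decide)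
  have h01 : e 0 ≠ e 1 := fun h => absurd (he.inj h) (by decide)
  unfold df
  split_ifs
  · exact sub_ne_zero.2 h12
  · exact sub_ne_zero.2 h02
  · exact sub_ne_zero.2 h01

theorem mon_ne {F : Type} [Field F] {f : ℕ} {u : Fin f → F} (hu : ∀ l, u l ≠ 0) (c : Fin f → ZMod 2) :
    mon u c ≠ 0 := by
  unfold mon
  exact Finset.prod_ne_zero_iff.2 fun l _ => pow_ne_zero _ (hu l)

theorem isPow_mul {F : Type} [Field F] {a b m : F} (hm : m ≠ 0) (ha : IsPow 2 (a * m)) (hb : IsPow 2 (b * m)) :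
    IsPow 2 (a * b) := by
  obtain ⟨x, hx⟩ := ha
  obtain ⟨y, hy⟩ := hb
  refine ⟨x * y / m, ?_⟩
  field_simp
  calc a * b * m ^ 2 = (a * m) * (b * m) := by ring
    _ = x ^ 2 * y ^ 2 := by rw [hx, hy]

theorem dce : Pool.Agent.Q283.FT.S_DCE := by
  intro F _ _ ζ _ y f u r π hB
  refine ⟨?_, ?_, ?_⟩
  · intro e he hg
    have h : ∀ l : Fin 3, ∃ c : Fin f → ZMod 2, IsPow 2 (df e l * mon u c) := by
      intro l
      refine hB.full _ (df_ne he l) ?_
      intro v hv
      unfold vl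
      rw [(hg v hv).unit l]
      simp
    choose c hc using h
    exact ⟨c, hc⟩
  · intro e c _ hc hn l l' hll
    by_contra hne
    refine hn l l' hne (isPow_mul (mon_ne hB.ue (c l)) (hc l) ?_)
    rw [hll]
    exact hc l'
  · intro e e' c c' _ _ hc hc' hm
    rintro ⟨σ, hσ⟩
    refine hm ⟨σ, fun l => isPow_mul (mon_ne hB.ue (c l)) (hc l) ?_⟩
    rw [hσ l]
    exact hc' (σ l)

end Pool.Agent.Q53.FT
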